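import Mathlib
import Pool.Agent.Helper38.SG.Defs

/-! # Sobolev gap, piece LIN-A2: restricted root decomposition (pure linear algebra) -/

open Filter Topology Set
open scoped RealInnerProductSpace ContDiff

universe u

namespace Pool.Agent.Helper17.SG

open Pool.Agent.Helper38.SG

variable {G 𝔤 : Type u} [Group G] [TopologicalSpace G]
  [NormedAddCommGroup 𝔤] [InnerProductSpace ℝ 𝔤]

variable (P : ParData G 𝔤)

theorem br_symm {H : 𝔤} (hH : H ∈ P.𝔞) (X Y : 𝔤) : ⟪P.br H X, Y⟫ = ⟪X, P.br H Y⟫ := by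
  rw [P.inv, P.θ_𝔞 H hH, map_neg, LinearMap.neg_apply, inner_neg_right, neg_neg]

theorem br_comm
    (hjac : ∀ X Y Z, P.br X (P.br Y Z) = P.br (P.br X Y) Z + P.br Y (P.br X Z))
    {H H' : 𝔤} (hH : H ∈ P.𝔞) (hH' : H' ∈ P.𝔞) (X : 𝔤) :
    P.br H (P.br H' X) = P.br H' (P.br H X) := by
  rw [hjac H H' X, P.br_𝔞 H hH H' hH']
  simp

/-- eigenvectors of `ad H` for different eigenvalues are orthogonal -/
theorem inner_eq_zero {H : 𝔤} (hH : H ∈ P.𝔞) {X Y : 𝔤} {a b : ℝ} (hX : P.br H X = a • X)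
    (hY : P.br H Y = b • Y) (hab : a ≠ b) : ⟪X, Y⟫ = 0 := by
  have h := br_symm P hH X Y
  rw [hX, hY, inner_smul_left, inner_smul_right] at h
  have h2 : (a - b) * ⟪X, Y⟫ = 0 := by
    simp only [RCLike.conj_to_real] at h
    linarith
  exact (mul_eq_zero.1 h2).resolve_left (sub_ne_zero.2 hab)

/-- a positive root takes a value at least `1` on `X0` -/
theorem posRoot_ge [FiniteDimensional ℝ 𝔤] {α : P.𝔞 →ₗ[ℝ] ℝ}
    (hα : IsPosRoot P.br P.𝔞 P.H0 α) : 1 ≤ α P.X0 := by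
  classical
  have hfin : (Module.End.HasEigenvalue (P.br (P.H0 : 𝔤)) : ℝ → Prop) =
    fun μ => Module.End.HasEigenvalue (P.br (P.H0 : 𝔤)) μ := rfl
  have hF : Set.Finite {μ : ℝ | Module.End.HasEigenvalue (P.br (P.H0 : 𝔤)) μ} :=
    Module.End.finite_hasEigenvalue _
  have key : ∀ n : ℕ, ∀ α : P.𝔞 →ₗ[ℝ] ℝ, IsPosRoot P.br P.𝔞 P.H0 α →
      (hF.toFinset.filter (· < α P.H0)).card ≤ n → 1 ≤ α P.X0 := by
    intro n
    induction n with
    | zero =>
      intro α hα hn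
      by_cases hs : IsSimpleRoot P.br P.𝔞 P.H0 α
      · exact (P.X0_simple α hs).ge
      · exfalso
        apply hs
        refine ⟨hα, fun β γ hβ hγ hab => ?_⟩
        have h1 : β P.H0 ∈ hF.toFinset.filter (· < α P.H0) := by
          rw [Finset.mem_filter, Set.Finite.mem_toFinset]
          refine ⟨?_, ?_⟩
          · obtain ⟨X, hX0, hX⟩ := hβ.1.2
            exact Module.End.hasEigenvalue_of_hasEigenvector
              ⟨Module.End.mem_eigenspace_iff.2 (hX P.H0), hX0⟩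
          · have := hγ.2
            rw [hab, LinearMap.add_apply]
            linarith
        rw [Nat.le_zero, Finset.card_eq_zero] at hn
        rw [hn] at h1
        simp at h1
    | succ n ih =>
      intro α hα hn
      by_cases hs : IsSimpleRoot P.br P.𝔞 P.H0 α
      · exact (P.X0_simple α hs).ge
      · have : ∃ β γ, IsPosRoot P.br P.𝔞 P.H0 β ∧ IsPosRoot P.br P.𝔞 P.H0 γ ∧ α = β + γ := by
          by_contra hcon
          push Not at hcon
          exact hs ⟨hα, fun β γ hβ hγ => hcon β γ hβ hγ⟩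
        obtain ⟨β, γ, hβ, hγ, hab⟩ := this
        have hlt : ∀ β γ : P.𝔞 →ₗ[ℝ] ℝ, IsPosRoot P.br P.𝔞 P.H0 β → IsPosRoot P.br P.𝔞 P.H0 γ →
            α = β + γ → 1 ≤ β P.X0 := by
          intro β γ hβ hγ hab
          apply ih β hβ
          have h1 : β P.H0 ∈ hF.toFinset.filter (· < α P.H0) := by
            rw [Finset.mem_filter, Set.Finite.mem_toFinset]
            refine ⟨?_, ?_⟩
            · obtain ⟨X, hX0, hX⟩ := hβ.1.2
              exact Module.End.hasEigenvalue_of_hasEigenvector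
                ⟨Module.End.mem_eigenspace_iff.2 (hX P.H0), hX0⟩
            · have := hγ.2
              rw [hab, LinearMap.add_apply]
              linarith
          have h2 : hF.toFinset.filter (· < β P.H0) ⊂ hF.toFinset.filter (· < α P.H0) := by
            refine Finset.ssubset_iff_subset_ne.2 ⟨?_, ?_⟩
            · intro μ hμ
              rw [Finset.mem_filter] at hμ h1 ⊢
              exact ⟨hμ.1, hμ.2.trans h1.2⟩
            · intro h
              rw [← h, Finset.mem_filter] at h1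
              exact lt_irrefl _ h1.2
          have h3 := Finset.card_lt_card h2
          omega
        have e1 := hlt β γ hβ hγ hab
        have e2 := hlt γ β hγ hβ (by rw [hab, add_comm])
        rw [hab, LinearMap.add_apply]
        linarith
  exact key _ α hα le_rfl

/-- decomposition of elements of `𝔫` into orthogonal root vectors with `α(X0) ≥ 1` -/
theorem exists_decomp [FiniteDimensional ℝ 𝔤]
    (hjac : ∀ X Y Z, P.br X (P.br Y Z) = P.br (P.br X Y) Z + P.br Y (P.br X Z))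
    {Y : 𝔤} (hY : Y ∈ P.𝔫) :
    ∃ (s : Finset (P.𝔞 → ℝ)) (v : (P.𝔞 → ℝ) → 𝔤), Y = ∑ χ ∈ s, v χ ∧
      (∀ χ ∈ s, P.br P.X0 (v χ) = χ P.X0 • v χ) ∧ (∀ χ ∈ s, 1 ≤ χ P.X0) ∧
      (∀ χ ∈ s, ∀ χ' ∈ s, χ ≠ χ' → ⟪v χ, v χ'⟫ = 0) := by
  classical
  have htop := LinearMap.IsSymmetric.iSup_iInf_eq_top_of_commute (𝕜 := ℝ) (E := 𝔤)
    (T := fun H : P.𝔞 => P.br (H : 𝔤)) (fun H X Y => br_symm P H.2 X Y)
    (fun H H' _ => by
      refine LinearMap.ext fun X => ?_
      exact br_comm P hjac H.2 H'.2 X)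
  have hYtop : Y ∈ ⨆ χ : P.𝔞 → ℝ, ⨅ i : P.𝔞, Module.End.eigenspace (P.br (i : 𝔤)) (χ i) := by
    rw [htop]; trivial
  obtain ⟨f, hf, hsum⟩ := (Submodule.mem_iSup_iff_exists_finsupp _ _).1 hYtop
  have hf' : ∀ χ : P.𝔞 → ℝ, ∀ H : P.𝔞, P.br H (f χ) = χ H • f χ := by
    intro χ H
    have := (Submodule.mem_iInf _).1 (hf χ) H
    exact Module.End.mem_eigenspace_iff.1 this
  have hroot : ∀ χ : P.𝔞 → ℝ, f χ ≠ 0 → 0 < χ P.H0 → 1 ≤ χ P.X0 := by
    intro χ hne hpos
    let α : P.𝔞 →ₗ[ℝ] ℝ :=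
      { toFun := χ
        map_add' := fun H H' => by
          have h1 := hf' χ (H + H')
          rw [Submodule.coe_add, map_add, LinearMap.add_apply, hf', hf', ← add_smul] at h1
          exact (smul_left_injective ℝ hne h1).symm
        map_smul' := fun c H => by
          have h1 := hf' χ (c • H)
          rw [Submodule.coe_smul, map_smul, LinearMap.smul_apply, hf', ← mul_smul] at h1
          exact (smul_left_injective ℝ hne h1).symm }
    have hα : IsPosRoot P.br P.𝔞 P.H0 α := by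
      refine ⟨⟨?_, f χ, hne, hf' χ⟩, hpos⟩
      intro h0
      have : α P.H0 = 0 := by rw [h0]; rfl
      exact absurd this hpos.ne'
    exact posRoot_ge P hα
  have hYsum : Y = ∑ χ ∈ f.support, f χ := hsum.symm
  have hsplit := Finset.sum_filter_add_sum_filter_not f.support (fun χ => 0 < χ P.H0)
    (fun χ => f χ)
  have hmem : ∀ χ ∈ f.support.filter (fun χ => 0 < χ P.H0), f χ ∈ P.𝔫 := by
    intro χ hχ
    rw [Finset.mem_filter] at hχ
    exact (le_iSup (fun μ : Set.Ioi (0 : ℝ) => Module.End.eigenspace (P.br P.H0) (μ : ℝ))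
      ⟨χ P.H0, hχ.2⟩) (Module.End.mem_eigenspace_iff.2 (hf' χ P.H0))
  set a := ∑ χ ∈ f.support.filter (fun χ => 0 < χ P.H0), f χ with ha
  set b := ∑ χ ∈ f.support.filter (fun χ => ¬ 0 < χ P.H0), f χ with hb
  have haN : a ∈ P.𝔫 := Submodule.sum_mem _ hmem
  have hYab : Y = a + b := by rw [hsplit, ← hYsum]
  have hbN : b ∈ P.𝔫 := by
    have : b = Y - a := by rw [hYab]; abel
    rw [this]
    exact Submodule.sub_mem _ hY haN
  have horth : ∀ Z ∈ P.𝔫, ⟪Z, b⟫ = 0 := by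
    intro Z hZ
    refine Submodule.iSup_induction
      (p := fun μ : Set.Ioi (0 : ℝ) => Module.End.eigenspace (P.br P.H0) (μ : ℝ))
      (motive := fun Z => ⟪Z, b⟫ = 0) hZ ?_ ?_ ?_
    · intro μ Z hZ
      rw [hb, inner_sum]
      apply Finset.sum_eq_zero
      intro χ hχ
      rw [Finset.mem_filter] at hχ
      refine inner_eq_zero P P.H0.2 (Module.End.mem_eigenspace_iff.1 hZ) (hf' χ P.H0) ?_
      intro h
      have h1 : (0 : ℝ) < μ := μ.2
      rw [h] at h1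
      exact hχ.2 h1
    · exact inner_zero_left _
    · intro x y hx hy
      rw [inner_add_left, hx, hy, add_zero]
  have hb0 : b = 0 := inner_self_eq_zero.1 (horth b hbN)
  refine ⟨f.support.filter (fun χ => 0 < χ P.H0), fun χ => f χ, ?_, ?_, ?_, ?_⟩
  · rw [hYab, hb0, add_zero]
  · intro χ _
    exact hf' χ P.X0
  · intro χ hχ
    rw [Finset.mem_filter, Finsupp.mem_support_iff] at hχ
    exact hroot χ hχ.1 hχ.2
  · intro χ _ χ' _ hne
    obtain ⟨H, hH⟩ := Function.ne_iff.1 hne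
    exact inner_eq_zero P H.2 (hf' χ H) (hf' χ' H) hH

/-- norm of a sum of pairwise orthogonal vectors -/
theorem inner_sum_orth {ι : Type*} (s : Finset ι) (v w : ι → 𝔤)
    (h : ∀ i ∈ s, ∀ j ∈ s, i ≠ j → ⟪v i, w j⟫ = 0) :
    ⟪∑ i ∈ s, v i, ∑ i ∈ s, w i⟫ = ∑ i ∈ s, ⟪v i, w i⟫ := by
  classical
  rw [sum_inner]
  refine Finset.sum_congr rfl fun i hi => ?_
  rw [inner_sum, Finset.sum_eq_single i]
  · intro j hj hne
    exact h i hi j hj hne.symm
  · intro h'
    exact absurd hi h'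

/-- `X0` acts with eigenvalues `≥ 1` on `𝔫`: every positive root is a nonempty sum of simple
roots. -/
theorem X0_ge [FiniteDimensional ℝ 𝔤] (hsk : ∀ X, P.br X X = 0)
    (hjac : ∀ X Y Z, P.br X (P.br Y Z) = P.br (P.br X Y) Z + P.br Y (P.br X Z))
    {Y : 𝔤} (hY : Y ∈ P.𝔫) : ‖Y‖ ^ 2 ≤ ⟪P.br P.X0 Y, Y⟫ := by
  have _ := hsk
  obtain ⟨s, v, hYs, h1, h2, h3⟩ := exists_decomp P hjac hY
  have e1 : P.br P.X0 Y = ∑ χ ∈ s, χ P.X0 • v χ := by
    rw [hYs, map_sum]
    exact Finset.sum_congr rfl h1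
  rw [e1, ← real_inner_self_eq_norm_sq, hYs,
    inner_sum_orth s v v h3, inner_sum_orth s (fun χ => χ P.X0 • v χ) v ?_]
  · refine Finset.sum_le_sum fun χ hχ => ?_
    rw [inner_smul_left, RCLike.conj_to_real]
    have := h2 χ hχ
    have h4 : 0 ≤ ⟪v χ, v χ⟫ := real_inner_self_nonneg
    nlinarith
  · intro i hi j hj hne
    rw [inner_smul_left, h3 i hi j hj hne, mul_zero]

/-- the exponential of an operator on an eigenvector -/
theorem exp_apply_of_eigen [FiniteDimensional ℝ 𝔤] (A : 𝔤 →L[ℝ] 𝔤) {v : 𝔤} {a : ℝ}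
    (h : A v = a • v) : NormedSpace.exp A v = Real.exp a • v := by
  have h1 := NormedSpace.exp_series_hasSum_exp' (𝕂 := ℝ) A
  have h2 : HasSum (fun n : ℕ => ((n.factorial : ℝ)⁻¹ • A ^ n) v) (NormedSpace.exp A v) :=
    h1.mapL (ContinuousLinearMap.apply ℝ 𝔤 v)
  have h3 := (NormedSpace.exp_series_hasSum_exp' (𝕂 := ℝ) a).smul_const v
  have h4 : (fun n : ℕ => ((n.factorial : ℝ)⁻¹ • A ^ n) v) =
      fun n : ℕ => ((n.factorial : ℝ)⁻¹ • a ^ n) • v := by
    funext n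
    have : (A ^ n) v = a ^ n • v := by
      induction n with
      | zero => simp
      | succ n ih =>
        rw [pow_succ, mul_apply_eq_comp, h, map_smul, ih, smul_smul, pow_succ,
          mul_comm]
    rw [_root_.smul_apply, this, smul_smul, smul_eq_mul]
  rw [h4] at h2
  rw [h2.unique h3, Real.exp_eq_exp_ℝ]

/-- decay of `e^{t ad X0}` on `θ 𝔫` -/
theorem norm_exp_X0_le [FiniteDimensional ℝ 𝔤] (hsk : ∀ X, P.br X X = 0)
    (hjac : ∀ X Y Z, P.br X (P.br Y Z) = P.br (P.br X Y) Z + P.br Y (P.br X Z))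
    {Y : 𝔤} (hY : P.θ Y ∈ P.𝔫) {t : ℝ} (ht : 0 ≤ t) :
    ‖NormedSpace.exp (t • LinearMap.toContinuousLinearMap (P.br P.X0)) Y‖ ≤
      Real.exp (-t) * ‖Y‖ := by
  have _ := hsk
  obtain ⟨s, v, hYs, h1, h2, h3⟩ := exists_decomp P hjac hY
  have hY2 : Y = ∑ χ ∈ s, P.θ (v χ) := by
    rw [← P.θ_θ Y, hYs, map_sum]
  have horth : ∀ χ ∈ s, ∀ χ' ∈ s, χ ≠ χ' → ⟪P.θ (v χ), P.θ (v χ')⟫ = 0 := by
    intro χ hχ χ' hχ' hne
    rw [P.θ_isom, h3 χ hχ χ' hχ' hne]
  have hbr : ∀ χ ∈ s, P.br P.X0 (P.θ (v χ)) = (-(χ P.X0)) • P.θ (v χ) := by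
    intro χ hχ
    have e := P.θ_br P.X0 (v χ)
    rw [h1 χ hχ, P.θ_𝔞 _ P.X0.2, map_neg, LinearMap.neg_apply, map_smul] at e
    rw [neg_smul, e, neg_neg]
  have hexp : NormedSpace.exp (t • LinearMap.toContinuousLinearMap (P.br P.X0)) Y =
      ∑ χ ∈ s, Real.exp (-(t * χ P.X0)) • P.θ (v χ) := by
    rw [hY2, map_sum]
    refine Finset.sum_congr rfl fun χ hχ => ?_
    apply exp_apply_of_eigen
    rw [_root_.smul_apply, LinearMap.coe_toContinuousLinearMap', hbr χ hχ,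
      smul_smul]
    congr 1
    ring
  have hsq : ‖NormedSpace.exp (t • LinearMap.toContinuousLinearMap (P.br P.X0)) Y‖ ^ 2 ≤
      (Real.exp (-t) * ‖Y‖) ^ 2 := by
    rw [mul_pow, ← real_inner_self_eq_norm_sq, ← real_inner_self_eq_norm_sq, hexp]
    rw [inner_sum_orth s _ _ (fun i hi j hj hne => by
      rw [inner_smul_left, inner_smul_right, horth i hi j hj hne]; simp)]
    conv_rhs => rw [hY2, inner_sum_orth s _ _ horth, Finset.mul_sum]
    refine Finset.sum_le_sum fun χ hχ => ?_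
    rw [inner_smul_left, inner_smul_right, RCLike.conj_to_real]
    have h4 : 0 ≤ ⟪P.θ (v χ), P.θ (v χ)⟫ := real_inner_self_nonneg
    have h5 : Real.exp (-(t * χ P.X0)) ≤ Real.exp (-t) := by
      apply Real.exp_le_exp.2
      have := h2 χ hχ
      nlinarith
    have h6 : 0 < Real.exp (-(t * χ P.X0)) := Real.exp_pos _
    rw [← mul_assoc, sq]
    exact mul_le_mul_of_nonneg_right
      (mul_le_mul h5 h5 h6.le (h6.le.trans h5)) h4
  exact le_of_sq_le_sq hsq (by positivity)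

theorem c_nonneg [FiniteDimensional ℝ 𝔤] (hsk : ∀ X, P.br X X = 0)
    (hjac : ∀ X Y Z, P.br X (P.br Y Z) = P.br (P.br X Y) Z + P.br Y (P.br X Z)) :
    0 ≤ P.c := by
  rw [ParData.c, ParData.ρ_apply]
  set E : 𝔤 →ₗ[ℝ] 𝔤 := (P.𝔫.starProjection : 𝔤 →ₗ[ℝ] 𝔤) with hE
  have hEE : E ∘ₗ E = E := by
    refine LinearMap.ext fun X => ?_
    change P.𝔫.starProjection (P.𝔫.starProjection X) = P.𝔫.starProjection X
    exact Submodule.starProjection_eq_self_iff.2 (Submodule.starProjection_apply_mem _ _)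
  have htr : LinearMap.trace ℝ 𝔤 (P.br P.X0 ∘ₗ E) =
      LinearMap.trace ℝ 𝔤 (E ∘ₗ (P.br P.X0 ∘ₗ E)) := by
    have h1 : LinearMap.trace ℝ 𝔤 ((P.br P.X0 ∘ₗ E) ∘ₗ E) =
        LinearMap.trace ℝ 𝔤 (E ∘ₗ (P.br P.X0 ∘ₗ E)) :=
      LinearMap.trace_mul_comm ℝ (P.br P.X0 ∘ₗ E) E
    rw [← h1, LinearMap.comp_assoc, hEE]
  rw [htr, LinearMap.trace_eq_sum_inner _ (stdOrthonormalBasis ℝ 𝔤)]
  apply mul_nonneg (by norm_num)
  refine Finset.sum_nonneg fun i _ => ?_
  set e := stdOrthonormalBasis ℝ 𝔤 i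
  have h2 : ⟪e, (E ∘ₗ (P.br P.X0 ∘ₗ E)) e⟫ = ⟪P.br P.X0 (E e), E e⟫ := by
    change ⟪e, P.𝔫.starProjection (P.br P.X0 (P.𝔫.starProjection e))⟫ =
      ⟪P.br P.X0 (P.𝔫.starProjection e), P.𝔫.starProjection e⟫
    rw [← Submodule.inner_starProjection_left_eq_right, real_inner_comm]
  rw [h2]
  have h3 := X0_ge P hsk hjac (Y := E e) (Submodule.starProjection_apply_mem _ _)
  exact (sq_nonneg _).trans h3

end Pool.Agent.Helper17.SG
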